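import Mathlib
import Pool.Agent.H.MP_d2bd57_al.Main

set_option autoImplicit false

namespace Pool.Agent.Results.MP_d2bd57_al.Q1

open Pool.Agent.H.MP_d2bd57_al

theorem result (k G : Type) [Field k] (p : ℕ) [Fact p.Prime] [CharP k p] [Group G] [Finite G]
    (m : ℕ) (ρ : G →* Matrix (Fin m) (Fin m) k) :
    ∃ d : ℕ, ∀ S : Set (MvPolynomial (Fin m) k),
      (∀ f, f ∈ Algebra.adjoin k S ↔ ∀ g, actOne ρ g f = f) →
      ∀ (n : ℕ) (f : MvPolynomial (Fin n × Fin m) k), (∀ g, actMany ρ n g f = f) →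
        f ^ p ^ d ∈ polAlg n S := by
  letI := Fintype.ofFinite G
  obtain ⟨d, hd⟩ := main ρ p
  exact ⟨d, fun S hS n f hf =>
    P_le ρ n (fun x hx => (hS x).2 ((mem_inv ρ).1 hx)) (hd n f hf)⟩

end Pool.Agent.Results.MP_d2bd57_al.Q1
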